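import Pool.Agent.J4H58.XC.Stm6
import Pool.Agent.J4H48.OC.Srt

/-!
# Project XC of helper58: (BOD), the density of a 1-symmetric convex body (helper21)
-/

set_option autoImplicit false

namespace Pool.Agent.J4H21.XC

open MeasureTheory Set Filter Topology
open scoped ENNReal
open Pool.Agent.W695.KH (Eu)
open Pool.Agent.J4H58.OC (ordE SymF)
open Pool.Agent.J4H58.XC

theorem ordE_closed {n : ℕ} (R : Fin n → Fin n → Prop) : IsClosed (ordE R) := by
  have : ordE R = ⋂ i, ⋂ j, ⋂ (_ : R i j), {x : Eu (Fin n) | x i ≤ x j} := by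
    ext x
    simp [ordE]
  rw [this]
  refine isClosed_iInter fun i => isClosed_iInter fun j => isClosed_iInter fun _ => ?_
  exact isClosed_le (by fun_prop) (by fun_prop)

theorem ordE_convex {n : ℕ} (R : Fin n → Fin n → Prop) : Convex ℝ (ordE R) := by
  intro x hx y hy a b ha hb _ i j hij
  have h1 := hx i j hij
  have h2 := hy i j hij
  simp only [PiLp.add_apply, PiLp.smul_apply, smul_eq_mul]
  exact add_le_add (mul_le_mul_of_nonneg_left h1 ha) (mul_le_mul_of_nonneg_left h2 hb)

theorem t_BOD : S_BOD := by
  classical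
  intro n K R hn hKc hKx hKi hKs h1 h2
  have hCc : IsCompact (K ∩ ordE R) := hKc.inter_right (ordE_closed R)
  have hCx : Convex ℝ (K ∩ ordE R) := hKx.inter (ordE_convex R)
  have hKm : MeasurableSet K := hKc.isClosed.measurableSet
  have hOm : MeasurableSet (ordE R) := (ordE_closed R).measurableSet
  have hCm : MeasurableSet (K ∩ ordE R) := hKm.inter hOm
  have hKfin : volume K < ⊤ := hKc.measure_lt_top
  have hCfin : volume (K ∩ ordE R) < ⊤ := hCc.measure_lt_top
  have hKpos : 0 < volume K := (isOpen_interior.measure_pos volume hKi).trans_le (measure_mono interior_subset)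
  set c : ℝ := (volume K).toReal⁻¹ with hc
  have hKr : 0 < (volume K).toReal := ENNReal.toReal_pos hKpos.ne' hKfin.ne
  have hc0 : 0 < c := inv_pos.mpr hKr
  set ρ : Eu (Fin n) → ℝ := K.indicator (fun _ => c) with hρ
  have hiff : ∀ (σ : Equiv.Perm (Fin n)) (x y : Eu (Fin n)), (∀ i, |y i| = |x (σ i)|) →
      (y ∈ K ↔ x ∈ K) := by
    intro σ x y h
    refine ⟨fun hy => hKs σ.symm y x (fun i => ?_) hy, fun hx => hKs σ x y h hx⟩
    rw [h (σ.symm i), Equiv.apply_symm_apply]
  have hSd : Sd ρ := by
    refine ⟨fun x => ?_, measurable_const.indicator hKm, fun x y t ht0 ht1 => ?_, fun σ x y h => ?_⟩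
    · exact indicator_nonneg (fun _ _ => hc0.le) x
    · by_cases hx : x ∈ K
      · by_cases hy : y ∈ K
        · have hz : (1 - t) • x + t • y ∈ K := hKx hx hy (by linarith) ht0.le (by ring)
          simp only [hρ, indicator_of_mem hx, indicator_of_mem hy, indicator_of_mem hz]
          rw [← Real.rpow_add hc0, sub_add_cancel, Real.rpow_one]
        · simp only [hρ, indicator_of_notMem hy]
          rw [Real.zero_rpow ht0.ne', mul_zero]
          exact indicator_nonneg (fun _ _ => hc0.le) _
      · simp only [hρ, indicator_of_notMem hx]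
        rw [Real.zero_rpow (by linarith : (1 - t : ℝ) ≠ 0), zero_mul]
        exact indicator_nonneg (fun _ _ => hc0.le) _
    · by_cases hx : x ∈ K
      · simp only [hρ, indicator_of_mem hx, indicator_of_mem ((hiff σ x y h).2 hx)]
      · have hy : y ∉ K := fun hy => hx ((hiff σ x y h).1 hy)
        simp only [hρ, indicator_of_notMem hx, indicator_of_notMem hy]
  have hint : Integrable ρ := by
    rw [hρ, integrable_indicator_iff hKm]
    exact integrableOn_const hKfin.ne
  have hone : ∫ x, ρ x = 1 := by
    rw [hρ, integral_indicator hKm, setIntegral_const, smul_eq_mul, Measure.real, hc]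
    field_simp
  have hsym : SymF ρ := by
    intro p x
    exact hSd.inv p x _ fun i => rfl
  obtain ⟨c', hc', H, -⟩ := Pool.Agent.J4H48.OC.t_SRT n R h1 h2
  have hmass : ∫ x in ordE R, ρ x = c' := by
    rw [H ρ hint hsym, hone, mul_one]
  have hval : ∫ x in ordE R, ρ x = c * (volume (K ∩ ordE R)).toReal := by
    rw [hρ, setIntegral_indicator hKm, setIntegral_const, smul_eq_mul, Measure.real, inter_comm, mul_comm]
  have hCr : 0 < (volume (K ∩ ordE R)).toReal := by
    rw [hmass] at hval
    rw [hval] at hc'
    exact (mul_pos_iff_of_pos_left hc0).1 hc'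
  have hCpos : volume (K ∩ ordE R) ≠ 0 := by
    intro h
    rw [h] at hCr
    simp at hCr
  refine ⟨hCc, hCx, ?_, ρ, hSd, hint, hone, by rw [hmass]; exact hc', ?_⟩
  · by_contra hne
    rw [not_nonempty_iff_eq_empty] at hne
    apply hCpos
    have hfr : frontier (K ∩ ordE R) = K ∩ ordE R := by
      rw [frontier, hCc.isClosed.closure_eq, hne, diff_empty]
    rw [← hfr]
    exact hCx.addHaar_frontier volume
  · have e1 : (fun x => ENNReal.ofReal (rR ρ R x)) =
        (K ∩ ordE R).indicator (fun _ => (volume (K ∩ ordE R))⁻¹) := by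
      funext x
      unfold rR
      rw [hval]
      by_cases hx : x ∈ K ∩ ordE R
      · rw [indicator_of_mem hx, if_pos hx.2, hρ, indicator_of_mem hx.1]
        rw [show c / (c * (volume (K ∩ ordE R)).toReal) = ((volume (K ∩ ordE R)).toReal)⁻¹ by field_simp,
          ENNReal.ofReal_inv_of_pos hCr, ENNReal.ofReal_toReal hCfin.ne]
      · rw [indicator_of_notMem hx]
        by_cases hx2 : x ∈ ordE R
        · have hx1 : x ∉ K := fun h => hx ⟨h, hx2⟩
          rw [if_pos hx2, hρ, indicator_of_notMem hx1, zero_div, ENNReal.ofReal_zero]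
        · rw [if_neg hx2, zero_div, ENNReal.ofReal_zero]
    rw [e1, withDensity_indicator hCm, withDensity_const]

end Pool.Agent.J4H21.XC
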