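import Pool.Agent.J4H58.XC.Stm3

/-!
# Project XC of helper58: (X14), the limits `k → ∞`, then `L → ∞` (helper21)
-/

set_option autoImplicit false

namespace Pool.Agent.J4H21.XC

open MeasureTheory Set Filter Topology
open Pool.Agent.J4H58.XC

variable {n : ℕ}

theorem meas_ordc (R : Fin n → Fin n → Prop) : MeasurableSet (ordc R) := by
  have : ordc R = ⋂ i, ⋂ j, ⋂ (_ : R i j), {x : Fin n → ℝ | x i ≤ x j} := by
    ext x
    simp [ordc]
  rw [this]
  refine MeasurableSet.iInter fun i => MeasurableSet.iInter fun j => MeasurableSet.iInter fun _ => ?_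
  exact measurableSet_le (measurable_pi_apply i) (measurable_pi_apply j)

theorem cu_meas (L : ℝ) : MeasurableSet (cu n L) := measurableSet_Icc

theorem cu_fin (L : ℝ) : volume (cu n L) < ⊤ := (isCompact_Icc).measure_lt_top

theorem cu_union : (⋃ m : ℕ, cu n ((m : ℝ) + 1)) = univ := by
  apply eq_univ_of_forall
  intro x
  rw [mem_iUnion]
  obtain ⟨m, hm⟩ := exists_nat_ge (∑ i, |x i|)
  refine ⟨m, ?_⟩
  have h : ∀ i, |x i| ≤ (m : ℝ) + 1 := by
    intro i
    have : |x i| ≤ ∑ i, |x i| :=
      Finset.single_le_sum (f := fun i => |x i|) (fun j _ => abs_nonneg _) (Finset.mem_univ i)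
    linarith
  rw [cu, mem_Icc]
  exact ⟨fun i => (abs_le.mp (h i)).1, fun i => (abs_le.mp (h i)).2⟩

theorem cu_mono : Monotone (fun m : ℕ => cu n ((m : ℝ) + 1)) := by
  intro a b hab
  have : (a : ℝ) ≤ b := by exact_mod_cast hab
  exact Icc_subset_Icc (fun i => by simp only; linarith) (fun i => by simp only; linarith)

theorem lim_k {ρ : EuclideanSpace ℝ (Fin n) → ℝ} {r : ℕ → EuclideanSpace ℝ (Fin n) → ℝ} {M : ℝ}
    (hr : ∀ k, Continuous (r k)) (hp : ∀ k x, 0 < r k x) (hM : ∀ k x, r k x ≤ M)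
    (hlim : ∀ᵐ x, Tendsto (fun k => r k x) atTop (𝓝 (ρ x))) {L : ℝ} {D : Set (Fin n → ℝ)}
    (hD : MeasurableSet D) (hDL : D ⊆ cu n L) {h : (Fin n → ℝ) → ℝ} (hc : Continuous h) :
    Tendsto (fun k => ∫ x in D, fl (r k) x * h x) atTop (𝓝 (∫ x in D, fl ρ x * h x)) := by
  obtain ⟨B, hB⟩ := (isCompact_Icc (a := fun _ : Fin n => -L) (b := fun _ => L)).exists_bound_of_continuousOn
    hc.continuousOn
  have hM0 : 0 ≤ M := (hp 0 0).le.trans (hM 0 0)
  have hfin : volume D < ⊤ := (measure_mono hDL).trans_lt (cu_fin L)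
  haveI : IsFiniteMeasure (volume.restrict D) := ⟨by rw [Measure.restrict_apply_univ]; exact hfin⟩
  have hfl : ∀ k, Continuous (fl (r k)) := fun k => (hr k).comp (PiLp.continuous_toLp 2 _)
  refine tendsto_integral_of_dominated_convergence (fun _ => M * B) (fun k => ?_) (integrable_const _)
    (fun k => ?_) ?_
  · exact ((hfl k).mul hc).aestronglyMeasurable
  · filter_upwards [ae_restrict_mem hD] with x hx
    rw [norm_mul]
    apply mul_le_mul _ (hB x (hDL hx)) (norm_nonneg _) hM0
    rw [fl, Real.norm_of_nonneg (hp k _).le]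
    exact hM k _
  · apply ae_restrict_of_ae
    have h1 := (PiLp.volume_preserving_toLp (Fin n)).quasiMeasurePreserving.ae hlim
    filter_upwards [h1] with x hx
    exact hx.mul_const _

theorem t_X14 : S_X14 := by
  intro n ρ r R C s hn hSd hint hone hmi hm hs hC hrc hrp hrM hlim hPD f hf hfc
  obtain ⟨M, hM⟩ := hrM
  -- the functions
  have hfcont : Continuous f := hf.continuous
  have hgcont : Continuous (gr f) := by
    have h1 : Continuous (fderiv ℝ f) := hf.continuous_fderiv one_ne_zero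
    unfold gr pd
    fun_prop
  have hnn : ∀ x, 0 ≤ fl ρ x := fun x => hSd.nonneg _
  have hbf : ∃ B, ∀ x, ‖f x‖ ≤ B := hfcont.bounded_above_of_compact_support hfc
  have hbg : ∃ B, ∀ x, ‖gr f x‖ ≤ B := by
    apply hgcont.bounded_above_of_compact_support
    have h1 : HasCompactSupport (fderiv ℝ f) := hfc.fderiv ℝ
    have h2 := h1.comp_left (g := fun A : (Fin n → ℝ) →L[ℝ] ℝ => ∑ i, (A (Pi.single i 1)) ^ 2)
      (by simp)
    exact h2
  have hint_mul : ∀ h : (Fin n → ℝ) → ℝ, Continuous h → (∃ B, ∀ x, ‖h x‖ ≤ B) →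
      Integrable (fun x => fl ρ x * h x) := by
    intro h hc ⟨B, hB⟩
    refine (hint.norm.mul_const B).mono' (hint.aestronglyMeasurable.mul hc.aestronglyMeasurable)
      (Eventually.of_forall fun x => ?_)
    rw [norm_mul]
    exact mul_le_mul_of_nonneg_left (hB x) (norm_nonneg _)
  have i1 : Integrable (fun x => fl ρ x * (1 : ℝ)) := hint_mul _ continuous_const ⟨1, fun x => by simp⟩
  have i2 : Integrable (fun x => fl ρ x * f x ^ 2) := by
    apply hint_mul _ (by fun_prop)
    obtain ⟨B, hB⟩ := hbf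
    refine ⟨B ^ 2, fun x => ?_⟩
    rw [norm_pow]
    exact pow_le_pow_left₀ (norm_nonneg _) (hB x) 2
  have i3 : Integrable (fun x => fl ρ x * f x) := hint_mul _ hfcont hbf
  have i4 : Integrable (fun x => fl ρ x * gr f x) := hint_mul _ hgcont hbg
  -- `L → ∞`
  set S : ℕ → Set (Fin n → ℝ) := fun m => cu n ((m : ℝ) + 1) ∩ ordc R with hS
  have hSm : ∀ m, MeasurableSet (S m) := fun m => (cu_meas _).inter (meas_ordc R)
  have hSmono : Monotone S := fun a b hab => inter_subset_inter_left _ (cu_mono hab)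
  have hSU : (⋃ m, S m) = ordc R := by
    simp only [hS]
    rw [← iUnion_inter, cu_union, univ_inter]
  have hlimS : ∀ h : (Fin n → ℝ) → ℝ, Integrable h →
      Tendsto (fun m => ∫ x in S m, h x) atTop (𝓝 (∫ x in ordc R, h x)) := by
    intro h hh
    have := tendsto_setIntegral_of_monotone hSm hSmono (f := h) (μ := volume) hh.integrableOn
    rwa [hSU] at this
  set Z : ℕ → ℝ := fun m => ∫ x in cu n ((m : ℝ) + 1), fl ρ x with hZ
  have hZlim : Tendsto Z atTop (𝓝 1) := by
    have := tendsto_setIntegral_of_monotone (s := fun m : ℕ => cu n ((m : ℝ) + 1)) (fun m => cu_meas _) cu_mono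
      (f := fl ρ) (μ := volume) hint.integrableOn
    rw [cu_union, setIntegral_univ, hone] at this
    exact this
  set s' : ℕ → ℝ := fun m => s / Z m + 1 / ((m : ℝ) + 1) with hs'
  have hs'lim : Tendsto s' atTop (𝓝 s) := by
    have h1 : Tendsto (fun m => s / Z m) atTop (𝓝 (s / 1)) :=
      tendsto_const_nhds.div hZlim one_ne_zero
    have h2 := h1.add (tendsto_one_div_add_atTop_nhds_zero_nat (𝕜 := ℝ))
    rw [div_one, add_zero] at h2
    exact h2
  have hZpos : ∀ᶠ m in atTop, 0 < Z m := hZlim.eventually (lt_mem_nhds one_pos)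
  -- the inequality for each `m`
  have hineq : ∀ᶠ m in atTop, (∫ x in S m, fl ρ x * 1) * (∫ x in S m, fl ρ x * f x ^ 2) -
      (∫ x in S m, fl ρ x * f x) ^ 2 ≤
      (∫ x in S m, fl ρ x * 1) * (C * s' m * ∫ x in S m, fl ρ x * gr f x) := by
    filter_upwards [hZpos] with m hZm
    have hs'pos : 0 < s' m := by
      simp only [hs']
      positivity
    have hDL : S m ⊆ cu n ((m : ℝ) + 1) := inter_subset_left
    have l1 := lim_k hrc hrp hM hlim (hSm m) hDL (h := fun _ => 1) continuous_const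
    have l2 := lim_k hrc hrp hM hlim (hSm m) hDL (h := fun x => f x ^ 2) (by fun_prop)
    have l3 := lim_k hrc hrp hM hlim (hSm m) hDL (h := f) hfcont
    have l4 := lim_k hrc hrp hM hlim (hSm m) hDL (h := gr f) hgcont
    have hev : ∀ᶠ k in atTop, ∀ i : Fin n, ∫ x in cu n ((m : ℝ) + 1), x i ^ 2 * fl (r k) x ≤
        s' m * ∫ x in cu n ((m : ℝ) + 1), fl (r k) x := by
      rw [eventually_all]
      intro i
      have a1 := lim_k hrc hrp hM hlim (cu_meas ((m : ℝ) + 1)) Subset.rfl (h := fun x => x i ^ 2) (by fun_prop)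
      have a2 := (lim_k hrc hrp hM hlim (cu_meas ((m : ℝ) + 1)) Subset.rfl (h := fun _ => 1)
        continuous_const).const_mul (s' m)
      have a3 : ∫ x in cu n ((m : ℝ) + 1), fl ρ x * x i ^ 2 < s' m * ∫ x in cu n ((m : ℝ) + 1), fl ρ x * 1 := by
        have b1 : ∫ x in cu n ((m : ℝ) + 1), fl ρ x * x i ^ 2 ≤ s := by
          refine le_trans ?_ (hm i)
          have b2 : (fun x : Fin n → ℝ => fl ρ x * x i ^ 2) = fun x => x i ^ 2 * fl ρ x := by
            funext x; ring
          rw [b2]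
          exact setIntegral_le_integral (hmi i) (Eventually.of_forall fun x => mul_nonneg (sq_nonneg _) (hnn x))
        have b3 : s' m * ∫ x in cu n ((m : ℝ) + 1), fl ρ x * 1 = s + Z m / ((m : ℝ) + 1) := by
          simp only [hs', mul_one]
          rw [show (∫ x in cu n ((m : ℝ) + 1), fl ρ x) = Z m from rfl]
          field_simp
        rw [b3]
        have : 0 < Z m / ((m : ℝ) + 1) := by positivity
        linarith
      have a4 := a1.eventually_lt a2 a3
      filter_upwards [a4] with k hk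
      simp only [mul_one] at hk
      have b2 : (fun x : Fin n → ℝ => x i ^ 2 * fl (r k) x) = fun x => fl (r k) x * x i ^ 2 := by
        funext x; ring
      rw [b2]
      exact hk.le
    have hk : ∀ᶠ k in atTop, (∫ x in S m, fl (r k) x * 1) * (∫ x in S m, fl (r k) x * f x ^ 2) -
        (∫ x in S m, fl (r k) x * f x) ^ 2 ≤
        (∫ x in S m, fl (r k) x * 1) * (C * s' m * ∫ x in S m, fl (r k) x * gr f x) := by
      filter_upwards [hev] with k hk
      have := hPD k ((m : ℝ) + 1) (s' m) (by positivity) hs'pos hk f hf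
      simpa only [mul_one] using this
    exact le_of_tendsto_of_tendsto ((l1.mul l2).sub (l3.pow 2)) (l1.mul (l4.const_mul (C * s' m))) hk
  have e1 : Tendsto (fun m => ∫ x in S m, fl ρ x * 1) atTop (𝓝 (∫ x in ordc R, fl ρ x * 1)) := hlimS _ i1
  have e2 := hlimS _ i2
  have e3 := hlimS _ i3
  have e4 := hlimS _ i4
  have hfinal := le_of_tendsto_of_tendsto ((e1.mul e2).sub (e3.pow 2))
    (e1.mul ((hs'lim.const_mul C).mul e4)) hineq
  simpa only [mul_one] using hfinal

end Pool.Agent.J4H21.XC
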